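import Pool.Agent.H360R2.RG.Stubs
import Pool.Agent.H619R2.LG.Cls

/-! Task SGN of the r-gaps project: the signed diagonal coefficients. -/

open Complex Filter Topology Set MeasureTheory

namespace RGap

open SG (hh nn dd dl ord NZ)
open SP (RHs ZZ mu wt Mk Par Eb PS chi qq tt)
open LG (gK gh Zs bk lk fam prs nA yp ae EE Cn QT tm sm sm0 IsQ SF SM)

namespace SGNaux

/-- the completely multiplicative sign function -/
noncomputable def GG (P : Par) (s : ℕ → ℝ) (T : ℝ) (n : ℕ) : ℝ :=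
  n.factorization.prod (fun p e => s (Eb P T p) ^ e)

theorem GG_one (P : Par) (s : ℕ → ℝ) (T : ℝ) : GG P s T 1 = 1 := by
  simp [GG]

theorem GG_mul (P : Par) (s : ℕ → ℝ) (T : ℝ) {m n : ℕ} (hm : m ≠ 0) (hn : n ≠ 0) :
    GG P s T (m * n) = GG P s T m * GG P s T n := by
  unfold GG
  rw [Nat.factorization_mul hm hn]
  exact Finsupp.prod_add_index' (fun a => pow_zero _) (fun a b₁ b₂ => pow_add _ _ _)

theorem GG_prime (P : Par) (s : ℕ → ℝ) (T : ℝ) {p : ℕ} (hp : p.Prime) :
    GG P s T p = s (Eb P T p) := by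
  unfold GG
  rw [hp.factorization, Finsupp.prod_single_index (h := fun p e => s (Eb P T p) ^ e)
    (pow_zero _), pow_one]

theorem GG_nA (P : Par) (s : ℕ → ℝ) (T : ℝ) (A : Finset ℕ) (hA : ∀ p ∈ A, p.Prime) :
    GG P s T (nA A) = sg P s T A := by
  classical
  induction A using Finset.induction_on with
  | empty => simp [nA, sg, GG_one]
  | insert a A ha ih =>
    have hpa : a.Prime := hA a (Finset.mem_insert_self a A)
    have hpA : ∀ p ∈ A, p.Prime := fun p hp => hA p (Finset.mem_insert_of_mem hp)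
    have h1 : nA (insert a A) = a * nA A := by
      unfold nA; rw [Finset.prod_insert ha]
    have h2 : sg P s T (insert a A) = s (Eb P T a) * sg P s T A := by
      unfold sg; rw [Finset.prod_insert ha]
    rw [h1, h2, GG_mul P s T hpa.ne_zero (LG.Cls.nA_ne A hpA), GG_prime P s T hpa, ih hpA]

theorem sg_sq (P : Par) (s : ℕ → ℝ) (hs : IsSgn s) (T : ℝ) (A : Finset ℕ) :
    sg P s T A * sg P s T A = 1 := by
  unfold sg
  rw [← Finset.prod_mul_distrib]
  apply Finset.prod_eq_one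
  intro p _
  rcases hs (Eb P T p) with h | h <;> rw [h] <;> norm_num

theorem CnS_eq (P : Par) (B0 : ℕ) (r : ℝ) (F s : ℕ → ℝ) (T : ℝ) (hs : IsSgn s) (n : ℕ)
    (hn : n ≠ 0) : CnS P B0 r F s T n = GG P s T n * Cn P B0 r F T n := by
  unfold CnS Cn
  rw [Finset.mul_sum]
  apply Finset.sum_congr rfl
  intro q hq
  rw [Finset.mul_sum]
  apply Finset.sum_congr rfl
  intro q' hq'
  obtain ⟨⟨a1, a2⟩, -⟩ := LG.Cls.mem_prs.mp hq
  obtain ⟨⟨b1, b2⟩, -⟩ := LG.Cls.mem_prs.mp hq'
  have pa1 := LG.Cls.fam_prime a1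
  have pa2 := LG.Cls.fam_prime a2
  have pb1 := LG.Cls.fam_prime b1
  have pb2 := LG.Cls.fam_prime b2
  split_ifs with h
  · have h1 : GG P s T (nA q.2) * GG P s T (nA q'.1) =
        GG P s T n * (GG P s T (nA q.1) * GG P s T (nA q'.2)) := by
      rw [← GG_mul P s T (LG.Cls.nA_ne _ pa2) (LG.Cls.nA_ne _ pb1),
        ← GG_mul P s T (LG.Cls.nA_ne _ pa1) (LG.Cls.nA_ne _ pb2),
        ← GG_mul P s T hn (mul_ne_zero (LG.Cls.nA_ne _ pa1) (LG.Cls.nA_ne _ pb2)), h]
    rw [GG_nA P s T _ pa1, GG_nA P s T _ pa2, GG_nA P s T _ pb1, GG_nA P s T _ pb2] at h1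
    have e1 := sg_sq P s hs T q.1
    have e2 := sg_sq P s hs T q'.2
    unfold aeS
    have : sg P s T q.1 * sg P s T q.2 * (sg P s T q'.1 * sg P s T q'.2) = GG P s T n := by
      calc sg P s T q.1 * sg P s T q.2 * (sg P s T q'.1 * sg P s T q'.2)
          = (sg P s T q.2 * sg P s T q'.1) * (sg P s T q.1 * sg P s T q'.2) := by ring
        _ = GG P s T n * ((sg P s T q.1 * sg P s T q.1) * (sg P s T q'.2 * sg P s T q'.2)) := by
            rw [h1]; ring
        _ = GG P s T n := by rw [e1, e2]; ring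
    calc sg P s T q.1 * ae P r F T q.1 * (sg P s T q.2 * ae P r F T q.2) *
          (sg P s T q'.1 * ae P r F T q'.1 * (sg P s T q'.2 * ae P r F T q'.2))
        = (sg P s T q.1 * sg P s T q.2 * (sg P s T q'.1 * sg P s T q'.2)) *
          (ae P r F T q.1 * ae P r F T q.2 * (ae P r F T q'.1 * ae P r F T q'.2)) := by ring
      _ = _ := by rw [this]
  · rw [mul_zero]

end SGNaux

open SGNaux

theorem SGN_proof : SGN := by
  intro P B0 r F s T hs hT
  refine ⟨?_, ?_, ?_, ?_⟩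
  · rw [CnS_eq P B0 r F s T hs 1 one_ne_zero, GG_one, one_mul]
  · intro p hp
    have hpp := LG.Cls.prime_PS hp
    rw [CnS_eq P B0 r F s T hs p hpp.ne_zero, GG_prime P s T hpp]
  · intro p hp
    have hpp := LG.Cls.prime_PS hp
    rw [CnS_eq P B0 r F s T hs (p ^ 2) (pow_ne_zero _ hpp.ne_zero), pow_two,
      GG_mul P s T hpp.ne_zero hpp.ne_zero, GG_prime P s T hpp]
    rcases hs (Eb P T p) with h | h <;> rw [h] <;> norm_num
  · intro p k hp hk h
    rw [CnS_eq P B0 r F s T hs (p ^ k) (pow_ne_zero _ hp.ne_zero),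
      LG.Cn_zero P B0 r F T hT p k hp hk h, mul_zero]

end RGap
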